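import Pool.Agent.Results.MP_10444e_gt.FinitePowers
import Pool.Agent.Helper185.SierpPow
import Pool.Agent.Helper292.ForceCH

set_option autoImplicit false
set_option linter.all false

open Set Filter Topology

namespace Pool.Agent.Results.MP_10444e_gt.ConsistentlyFails

open Pool.Agent.Results.MP_10444e_gt.FinitePowers
open Pool.Agent.Helper185.Sel

theorem ufin_of_s1 {X : Set ℝ} (h : S1 (TauOf (OpenFam X)) (GammaOf (OpenFam X))) :
    UfinOmega X := by
  classical
  intro U hU hX
  by_cases hA : ∃ n, ∃ F : Finset (Set ℝ), (↑F : Set (Set ℝ)) ⊆ U n ∧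
      X ⊆ ⋃₀ (↑F : Set (Set ℝ))
  · obtain ⟨n, F, hF, hFX⟩ := hA
    refine ⟨fun m => if m = n then F else ∅, fun m => ?_, fun A hAX => ⟨n, ?_⟩⟩
    · by_cases hm : m = n
      · subst hm; simpa using hF
      · simp [hm]
    · simp only [if_true]
      exact hAX.trans hFX
  · push Not at hA
    have hne : X.Nonempty := by
      by_contra hc
      rw [not_nonempty_iff_eq_empty] at hc
      exact hA 0 ∅ (by simp) (by rw [hc]; exact empty_subset _)
    have hcount : ∀ n, ∃ u : ℕ → Set ℝ, (∀ k, u k ∈ U n) ∧ X ⊆ ⋃ k, u k := by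
      intro n
      obtain ⟨T, hT1, hT2, hT3⟩ := TopologicalSpace.isOpen_sUnion_countable (U n) (hU n)
      have hTne : T.Nonempty := by
        by_contra hc
        rw [not_nonempty_iff_eq_empty] at hc
        obtain ⟨x, hx⟩ := hne
        have := hX n hx
        rw [← hT3, hc] at this
        simp at this
      obtain ⟨u, hu⟩ := hT1.exists_eq_range hTne
      refine ⟨u, fun k => hT2 (by rw [hu]; exact mem_range_self k), fun x hx => ?_⟩
      have := hX n hx
      rw [← hT3, hu] at this
      simpa using this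
    choose u hu hux using hcount
    let W : ℕ → ℕ → Set X := fun n k => {x | ∃ j, j ≤ k ∧ x.1 ∈ u n j}
    have hWmono : ∀ n k l, k ≤ l → W n k ⊆ W n l := by
      rintro n k l hkl x ⟨j, hj, hx⟩
      exact ⟨j, hj.trans hkl, hx⟩
    have hWopen : ∀ n k, IsOpen (W n k) := by
      intro n k
      have : W n k = ⋃ j ∈ {j | j ≤ k}, (Subtype.val ⁻¹' (u n j) : Set X) := by
        ext x
        simp only [W, mem_setOf_eq, mem_iUnion, mem_preimage, exists_prop]
      rw [this]
      exact isOpen_biUnion fun j _ => (hU n _ (hu n j)).preimage continuous_subtype_val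
    have hWuniv : ∀ n k, W n k ≠ univ := by
      intro n k hk
      refine hA n ((Finset.range (k + 1)).image (u n)) ?_ ?_
      · intro s hs
        rw [Finset.coe_image] at hs
        obtain ⟨j, -, rfl⟩ := hs
        exact hu n j
      · intro x hx
        have : (⟨x, hx⟩ : X) ∈ W n k := by rw [hk]; exact mem_univ _
        obtain ⟨j, hj, hxj⟩ := this
        refine ⟨u n j, ?_, hxj⟩
        rw [Finset.coe_image]
        exact ⟨j, by simpa using Nat.lt_succ_of_le hj, rfl⟩
    have hWcov : ∀ n x, ∃ k, x ∈ W n k := by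
      intro n x
      obtain ⟨k, hk⟩ := mem_iUnion.1 (hux n x.2)
      exact ⟨k, k, le_rfl, hk⟩
    have hgam : ∀ n, range (W n) ∈ GammaOf (OpenFam X) := by
      intro n
      refine ⟨?_, ⟨?_, ?_⟩, ?_, ?_⟩
      · rintro _ ⟨k, rfl⟩
        exact hWopen n k
      · rw [eq_univ_iff_forall]
        intro x
        obtain ⟨k, hk⟩ := hWcov n x
        exact ⟨_, mem_range_self k, hk⟩
      · rintro ⟨k, hk⟩
        exact hWuniv n k hk
      · intro hfin
        -- the increasing chain stabilises
        have : ∃ k, ∀ l, W n l ⊆ W n k := by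
          by_contra hc
          push Not at hc
          have hstep : ∀ k, ∃ l, k < l ∧ ¬ W n l ⊆ W n k := by
            intro k
            obtain ⟨l, hl⟩ := hc k
            refine ⟨l, ?_, hl⟩
            by_contra hlk
            exact hl (hWmono n l k (not_lt.1 hlk))
          choose g hg1 hg2 using hstep
          let s : ℕ → ℕ := fun i => Nat.rec 0 (fun _ k => g k) i
          have hs : StrictMono s := strictMono_nat_of_lt_succ (fun i => hg1 (s i))
          have hinj : Function.Injective (fun i => W n (s i)) := by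
            intro i j hij
            by_contra hne
            rcases lt_or_gt_of_ne hne with h' | h'
            · have h2 : W n (s (i + 1)) ⊆ W n (s i) := by
                have := hWmono n (s (i + 1)) (s j) (hs.monotone h')
                exact this.trans hij.symm.subset
              exact hg2 (s i) h2
            · have h2 : W n (s (j + 1)) ⊆ W n (s j) := by
                have := hWmono n (s (j + 1)) (s i) (hs.monotone h')
                exact this.trans hij.subset
              exact hg2 (s j) h2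
          exact (infinite_range_of_injective hinj).mono
            (by rintro _ ⟨i, rfl⟩; exact mem_range_self _) hfin
        obtain ⟨k, hk⟩ := this
        apply hWuniv n k
        rw [eq_univ_iff_forall]
        intro x
        obtain ⟨l, hl⟩ := hWcov n x
        exact hk l hl
      · intro x
        obtain ⟨k, hk⟩ := hWcov n x
        refine ((finite_lt_nat k).image (W n)).subset ?_
        rintro _ ⟨⟨l, rfl⟩, hl⟩
        refine ⟨l, ?_, rfl⟩
        by_contra hc
        exact hl (hWmono n k l (not_lt.1 hc) hk)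
    have htau : ∀ n, range (W n) ∈ TauOf (OpenFam X) := by
      intro n
      obtain ⟨g1, g2, g3, g4⟩ := hgam n
      refine ⟨g1, g2, fun x => ?_, fun x y => Or.inl ((g4 y).subset ?_)⟩
      · intro hfin
        apply g3
        refine (hfin.union (g4 x)).subset ?_
        intro v hv
        by_cases hx : x ∈ v
        · exact Or.inl ⟨hv, hx⟩
        · exact Or.inr ⟨hv, hx⟩
      · rintro v ⟨h1, -, h3⟩
        exact ⟨h1, h3⟩
    obtain ⟨V, hV, hVg⟩ := h (fun n => range (W n)) htau
    choose k hk using hV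
    refine ⟨fun n => (Finset.range (k n + 1)).image (u n), fun n => ?_, fun A hAX => ?_⟩
    · intro s hs
      rw [Finset.coe_image] at hs
      obtain ⟨j, -, rfl⟩ := hs
      exact hu n j
    · have hfin : (⋃ a ∈ {a : X | a.1 ∈ A}, {v | v ∈ range V ∧ a ∉ v}).Finite := by
        refine Set.Finite.biUnion ?_ (fun a _ => hVg.2.2.2 a)
        exact (A.finite_toSet).preimage Subtype.val_injective.injOn
      obtain ⟨v, ⟨n, rfl⟩, hv2⟩ := (hVg.2.2.1).exists_notMem_finite hfin
      refine ⟨n, ?_⟩
      intro a ha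
      have haX : a ∈ X := hAX ha
      have : (⟨a, haX⟩ : X) ∈ V n := by
        by_contra hc
        apply hv2
        simp only [mem_iUnion]
        exact ⟨⟨a, haX⟩, ha, mem_range_self n, hc⟩
      rw [← hk n] at this
      obtain ⟨j, hj, hxj⟩ := this
      refine ⟨u n j, ?_, hxj⟩
      rw [Finset.coe_image]
      exact ⟨j, by simpa using Nat.lt_succ_of_le hj, rfl⟩

theorem sfin_of_menger {X : Set ℝ} (h : Menger (power X 2)) :
    Sfin (GammaOf (OpenFam (Fin 2 → X))) (CovOf (OpenFam (Fin 2 → X))) := by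
  classical
  intro U hU
  let ι : (Fin 2 → X) → (Fin 2 → ℝ) := fun v i => (v i : ℝ)
  have hι : IsInducing ι := IsInducing.piMap (fun _ => IsInducing.subtypeVal)
  have hUo : ∀ n, ∀ v ∈ U n, ∃ O : Set (Fin 2 → ℝ), IsOpen O ∧ ι ⁻¹' O = v := by
    intro n v hv
    exact hι.isOpen_iff.1 ((hU n).1 v hv)
  obtain ⟨F, hF, hcov⟩ := h (fun n => {O | IsOpen O ∧ ι ⁻¹' O ∈ U n}) (fun n O hO => hO.1) (by
    intro n z hz
    have h1 : (fun i => (⟨z i, hz i⟩ : X)) ∈ (⋃₀ (U n) : Set (Fin 2 → X)) := by
      rw [(hU n).2.1.1]; exact mem_univ _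
    obtain ⟨v, hv, hzv⟩ := h1
    obtain ⟨O, hO, hOv⟩ := hUo n v hv
    refine ⟨O, ⟨hO, by rw [hOv]; exact hv⟩, ?_⟩
    rw [← hOv] at hzv
    exact hzv)
  refine ⟨fun n => (fun O => ι ⁻¹' O) '' (↑(F n) : Set (Set (Fin 2 → ℝ))), fun n => ⟨?_, ?_⟩,
    ?_, ?_, ?_⟩
  · exact (F n).finite_toSet.image _
  · rintro _ ⟨O, hO, rfl⟩
    exact (hF n hO).2
  · intro v hv
    obtain ⟨n, O, hO, rfl⟩ := mem_iUnion.1 hv
    exact (hU n).1 _ (hF n hO).2
  · rw [eq_univ_iff_forall]
    intro v
    obtain ⟨n, O, hO, hv⟩ := hcov (ι v) (fun i => (v i).2)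
    exact ⟨ι ⁻¹' O, mem_iUnion.2 ⟨n, O, hO, rfl⟩, hv⟩
  · intro hv
    obtain ⟨n, O, hO, hO'⟩ := mem_iUnion.1 hv
    have h1 := (hF n hO).2
    simp only at hO'
    rw [hO'] at h1
    exact (hU n).2.1.2 h1

theorem under_ch (hCH : Cardinal.aleph 1 = Cardinal.continuum.{0}) :
    ∃ X : Set ℝ, UfinOmega X ∧ ∃ f : ℝ → (ℕ → ℕ), ContinuousOn f X ∧
      ¬ UfinOmega (finMaxClosure (f '' X)) := by
  obtain ⟨X, h1, -, h3⟩ := Pool.Agent.Helper185.Sierp.exists_tau_square hCH
  refine ⟨X, ufin_of_s1 h1, ?_⟩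
  by_contra hc
  push Not at hc
  exact h3 (sfin_of_menger ((FinitePowers.result.2 X).1.1 hc 2))

theorem result :
    (∃ (P : Type) (_ : Preorder P), Nonempty P ∧ ∀ p : P,
      p ∈ Pool.Agent.Helper292.ForceCH.OmegaOnePreserved P ∧
      p ∈ Pool.Agent.Helper292.ForceCH.CHHolds P) ∧
    (Cardinal.aleph 1 = Cardinal.continuum.{0} →
      ∃ X : Set ℝ, UfinOmega X ∧ ∃ f : ℝ → (ℕ → ℕ), ContinuousOn f X ∧
        ¬ UfinOmega (finMaxClosure (f '' X))) := by
  refine ⟨?_, under_ch⟩
  obtain ⟨P, i, h1, h2⟩ := Pool.Agent.Helper292.ForceCH.exists_forcing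
  exact ⟨P, i, h1, fun p => ⟨(h2 p).1, (h2 p).2.2⟩⟩

end Pool.Agent.Results.MP_10444e_gt.ConsistentlyFails
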