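import Mathlib

set_option autoImplicit false

open Set Filter Topology

namespace Pool.Agent.Results.MP_10444e_gt.FinitePowers

/-- The property `U_fin(O, Omega)` of a subset of a topological space, for covers by open sets,
written exactly as in the frozen statement of the problem. -/
def UfinOmega {α : Type} [TopologicalSpace α] (Z : Set α) : Prop :=
  ∀ U : ℕ → Set (Set α), (∀ n, ∀ u ∈ U n, IsOpen u) → (∀ n, Z ⊆ ⋃₀ U n) →
    ∃ F : ℕ → Finset (Set α), (∀ n, (↑(F n) : Set (Set α)) ⊆ U n) ∧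
      ∀ A : Finset α, (↑A : Set α) ⊆ Z →
        ∃ n, (↑A : Set α) ⊆ ⋃₀ (↑(F n) : Set (Set α))

/-- The Menger property `S_fin(O, O)` of a subset of a topological space. -/
def Menger {α : Type} [TopologicalSpace α] (Z : Set α) : Prop :=
  ∀ U : ℕ → Set (Set α), (∀ n, ∀ u ∈ U n, IsOpen u) → (∀ n, Z ⊆ ⋃₀ U n) →
    ∃ F : ℕ → Finset (Set α), (∀ n, (↑(F n) : Set (Set α)) ⊆ U n) ∧
      ∀ z ∈ Z, ∃ n, z ∈ ⋃₀ (↑(F n) : Set (Set α))

/-- `G(Y)`: all `g` eventually dominated by the pointwise maximum of a nonempty finite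
family of members of `Y`. -/
def finMaxClosure (Y : Set (ℕ → ℕ)) : Set (ℕ → ℕ) :=
  {g : ℕ → ℕ | ∃ F : Finset (ℕ → ℕ), F.Nonempty ∧ (↑F : Set (ℕ → ℕ)) ⊆ Y ∧
    ∀ᶠ m in Filter.atTop, g m ≤ F.sup (fun h => h m)}

/-- The `k`-th power of a set of reals, as a subset of `ℝ^k`. -/
def power (X : Set ℝ) (k : ℕ) : Set (Fin k → ℝ) := {v | ∀ i, v i ∈ X}

lemma UfinOmega.menger {α : Type} [TopologicalSpace α] {Z : Set α} (h : UfinOmega Z) :
    Menger Z := by
  intro U hU hZ
  obtain ⟨F, hF, hA⟩ := h U hU hZ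
  refine ⟨F, hF, fun z hz => ?_⟩
  obtain ⟨n, hn⟩ := hA {z} (by simpa using hz)
  exact ⟨n, hn (by simp)⟩

/-- A flexible form of the Menger property. -/
lemma Menger.choose {α : Type} [TopologicalSpace α] {Z : Set α} (hZ : Menger Z)
    {ι : Type*} [Nonempty ι] (C : ℕ → ι → Set α) (hC : ∀ n, ∀ x ∈ Z, ∃ i, C n i ∈ 𝓝[Z] x) :
    ∃ F : ℕ → Finset ι, ∀ x ∈ Z, ∃ n, ∃ i ∈ F n, x ∈ C n i := by
  classical
  obtain ⟨F, hF, hcov⟩ := hZ (fun n => {u | IsOpen u ∧ ∃ i, u ∩ Z ⊆ C n i})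
    (fun n u hu => hu.1) (by
      intro n x hx
      obtain ⟨i, hi⟩ := hC n x hx
      obtain ⟨u, huo, hxu, hu⟩ := mem_nhdsWithin.1 hi
      exact ⟨u, ⟨huo, i, hu⟩, hxu⟩)
  have hF' : ∀ n, ∀ u ∈ F n, ∃ i, u ∩ Z ⊆ C n i := fun n u hu => (hF n hu).2
  choose! g hg using hF'
  refine ⟨fun n => (F n).image (g n), fun x hx => ?_⟩
  obtain ⟨n, u, hu, hxu⟩ := hcov x hx
  exact ⟨n, g n u, Finset.mem_image_of_mem _ hu, hg n u hu ⟨hxu, hx⟩⟩

/-- The boxes `{g | g ≤ max (b, m below m)}` used to exhaust `G(Y)`. -/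
def boxTop {k : ℕ} (f : ℝ → ℕ → ℕ) (v : Fin k → ℝ) (m : ℕ) : ℕ → ℕ :=
  fun i => max (Finset.univ.sup (fun j => f (v j) i)) (if i < m then m else 0)

lemma isCompact_Iic_nat (b : ℕ → ℕ) : IsCompact (Set.Iic b) := by
  have : Set.Iic b = Set.univ.pi (fun i => Set.Iic (b i)) := by
    ext g; simp [Pi.le_def]
  rw [this]
  exact isCompact_univ_pi (fun i => (Set.finite_Iic (b i)).isCompact)

/-- A neighbourhood of the compact box contains everything that is bounded by `b` on a long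
enough initial segment. -/
lemma box_open (b : ℕ → ℕ) (O : Set (ℕ → ℕ)) (hO : IsOpen O) (hb : Set.Iic b ⊆ O) :
    ∃ N : ℕ, ∀ b' : ℕ → ℕ, (∀ i < N, b' i = b i) → Set.Iic b' ⊆ O := by
  classical
  have hloc : ∀ g ∈ Set.Iic b, ∃ N : ℕ, PiNat.cylinder g N ⊆ O := by
    intro g hg
    obtain ⟨v, ⟨y, n, rfl⟩, hgv, hv⟩ :=
      (PiNat.isTopologicalBasis_cylinders (fun _ : ℕ => ℕ)).exists_subset_of_mem_open
      (hb hg) hO
    exact ⟨n, by rwa [← PiNat.mem_cylinder_iff_eq.1 hgv] at hv⟩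
  choose! N hN using hloc
  obtain ⟨t, ht, htc⟩ := (isCompact_Iic_nat b).elim_nhds_subcover
    (fun g => PiNat.cylinder g (N g))
    (fun g _ => (PiNat.isOpen_cylinder (fun _ : ℕ => ℕ) g (N g)).mem_nhds
      (PiNat.self_mem_cylinder g (N g)))
  refine ⟨t.sup N, fun b' hb' g' hg' => ?_⟩
  set M := t.sup N with hM
  have hg : (fun i => if i < M then g' i else 0) ∈ Set.Iic b := by
    intro i
    by_cases hi : i < M
    · simpa [hi, ← hb' i hi] using hg' i
    · simp [hi]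
  obtain ⟨y, hy, hmem⟩ := Set.mem_iUnion₂.1 (htc hg)
  apply hN y (ht y hy)
  intro i hi
  have hiM : i < M := lt_of_lt_of_le hi (Finset.le_sup (f := N) hy)
  have := hmem i hi
  simpa [hiM] using this

lemma box_subset {k : ℕ} (hk : 0 < k) (f : ℝ → ℕ → ℕ) (X : Set ℝ) (v : Fin k → ℝ)
    (hv : v ∈ power X k) (m : ℕ) : Set.Iic (boxTop f v m) ⊆ finMaxClosure (f '' X) := by
  classical
  intro g hg
  refine ⟨Finset.univ.image (fun j => f (v j)), ?_, ?_, ?_⟩
  · have : Nonempty (Fin k) := ⟨⟨0, hk⟩⟩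
    simp [Finset.univ_nonempty]
  · intro h hh
    simp only [Finset.coe_image, Finset.coe_univ, Set.image_univ, Set.mem_range] at hh
    obtain ⟨j, rfl⟩ := hh
    exact ⟨v j, hv j, rfl⟩
  · filter_upwards [Filter.eventually_ge_atTop m] with i hi
    have := hg i
    simp only [boxTop, not_lt.2 hi, if_false] at this
    simpa [Finset.sup_image, Function.comp_def] using this

/-- If all finite powers of `X` are Menger, then `G(Psi[X])` has `U_fin(O, Omega)`. -/
lemma ufin_of_powers (X : Set ℝ) (hX : ∀ k, Menger (power X k)) (f : ℝ → ℕ → ℕ)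
    (hf : ContinuousOn f X) : UfinOmega (finMaxClosure (f '' X)) := by
  classical
  intro U hU hcov
  -- for each `k, m` a subsequence of the covers
  let e : ℕ → ℕ → ℕ → ℕ := fun k m r => Nat.pair k (Nat.pair m r)
  have main : ∀ k m : ℕ, ∃ F : ℕ → Finset (Finset (Set (ℕ → ℕ))),
      ∀ v ∈ power X (k + 1), ∃ r, ∃ i ∈ F r,
        v ∈ {v' : Fin (k + 1) → ℝ | (↑i : Set (Set (ℕ → ℕ))) ⊆ U (e k m r) ∧
          Set.Iic (boxTop f v' m) ⊆ ⋃₀ (↑i : Set (Set (ℕ → ℕ)))} := by
    intro k m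
    apply Menger.choose (hX (k + 1))
    intro r v hv
    -- cover the compact box
    have hbox := box_subset (Nat.succ_pos k) f X v hv m
    obtain ⟨i, hi, hic⟩ := (isCompact_Iic_nat (boxTop f v m)).elim_finite_subcover_image
      (b := U (e k m r)) (c := fun u => u) (fun u hu => hU _ u hu)
      (by intro g hg; simpa using hcov (e k m r) (hbox hg))
    obtain ⟨hifin, hicov⟩ := hic
    refine ⟨hifin.toFinset, ?_⟩
    have hOopen : IsOpen (⋃₀ (↑hifin.toFinset : Set (Set (ℕ → ℕ)))) := by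
      apply isOpen_sUnion
      intro u hu
      exact hU _ u (hi (by simpa using hu))
    obtain ⟨N, hN⟩ := box_open (boxTop f v m) _ hOopen
      (by intro g hg; have := hicov hg; simpa [Set.mem_iUnion] using this)
    -- near `v` the functions agree on `[0, N)`
    have hnear : ∀ᶠ v' in 𝓝[power X (k + 1)] v, ∀ j : Fin (k + 1), ∀ n < N,
        f (v' j) n = f (v j) n := by
      rw [Filter.eventually_all]
      intro j
      have : ∀ n : ℕ, ∀ᶠ v' in 𝓝[power X (k + 1)] v, f (v' j) n = f (v j) n := by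
        intro n
        have hc : Tendsto (fun x => f x n) (𝓝[X] (v j)) (𝓝 (f (v j) n)) :=
          ((continuous_apply n).tendsto _).comp (hf (v j) (hv j))
        have hp : Tendsto (fun v' : Fin (k + 1) → ℝ => v' j) (𝓝[power X (k + 1)] v)
            (𝓝[X] (v j)) := by
          apply tendsto_nhdsWithin_of_tendsto_nhds_of_eventually_within
          · exact ((continuous_apply j).tendsto v).mono_left nhdsWithin_le_nhds
          · filter_upwards [self_mem_nhdsWithin] with v' hv' using hv' j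
        have := hc.comp hp
        rw [nhds_discrete, tendsto_pure] at this
        exact this
      have h2 := (Filter.eventually_all_finite (Set.finite_lt_nat N)).2 (fun n _ => this n)
      filter_upwards [h2] with v' hv' n hn using hv' n hn
    filter_upwards [hnear] with v' hv'
    refine ⟨by intro u hu; exact hi (by simpa using hu), ?_⟩
    apply hN
    intro i hi'
    simp only [boxTop]
    congr 1
    apply Finset.sup_congr rfl
    intro j _
    exact hv' j i hi'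
  choose F hF using main
  -- assemble
  let H : ℕ → Finset (Set (ℕ → ℕ)) := fun n =>
    ((F (Nat.unpair n).1 (Nat.unpair (Nat.unpair n).2).1 (Nat.unpair (Nat.unpair n).2).2).filter
      (fun i : Finset (Set (ℕ → ℕ)) => (↑i : Set (Set (ℕ → ℕ))) ⊆ U n)).biUnion id
  have hH : ∀ k m r, ∀ i ∈ F k m r, (↑i : Set (Set (ℕ → ℕ))) ⊆ U (e k m r) →
      i ⊆ H (e k m r) := by
    intro k m r i hi hiU u hu
    simp only [H, e, Nat.unpair_pair, Finset.mem_biUnion, Finset.mem_filter, id]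
    exact ⟨i, ⟨hi, hiU⟩, hu⟩
  refine ⟨H, ?_, ?_⟩
  · intro n u hu
    simp only [H, Finset.coe_biUnion, Set.mem_iUnion, Finset.mem_coe, Finset.mem_filter, id] at hu
    obtain ⟨i, ⟨_, hi⟩, hu⟩ := hu
    exact hi hu
  · intro A hA
    rcases A.eq_empty_or_nonempty with rfl | hne
    · exact ⟨0, by simp⟩
    -- gather finitely many witnesses
    have hA' : ∀ g ∈ A, ∃ F : Finset (ℕ → ℕ), F.Nonempty ∧ (↑F : Set (ℕ → ℕ)) ⊆ f '' X ∧
        ∀ᶠ m in Filter.atTop, g m ≤ F.sup (fun h => h m) := fun g hg => hA hg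
    choose! W hW1 hW2 hW3 using hA'
    set T : Finset (ℕ → ℕ) := A.biUnion W with hT
    have hTX : ∀ h ∈ T, ∃ x ∈ X, f x = h := by
      intro h hh
      obtain ⟨g, hg, hh⟩ := Finset.mem_biUnion.1 hh
      exact hW2 g hg hh
    choose! x hxX hxf using hTX
    have hTne : T.Nonempty := by
      obtain ⟨g, hg⟩ := hne
      obtain ⟨h, hh⟩ := hW1 g hg
      exact ⟨h, Finset.mem_biUnion.2 ⟨g, hg, hh⟩⟩
    obtain ⟨k, hk⟩ : ∃ k, T.card = k + 1 := ⟨T.card - 1, by
      have := Finset.card_pos.2 hTne; omega⟩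
    let eq : Fin (k + 1) ≃ T := (T.equivFinOfCardEq hk).symm
    let v : Fin (k + 1) → ℝ := fun j => x (eq j)
    have hv : v ∈ power X (k + 1) := fun j => hxX _ (eq j).2
    have hsup : ∀ i, ∀ h ∈ T, h i ≤ Finset.univ.sup (fun j => f (v j) i) := by
      intro i h hh
      have := Finset.le_sup (f := fun j => f (v j) i) (Finset.mem_univ (eq.symm ⟨h, hh⟩))
      simpa [v, hxf h hh] using this
    have hmg : ∀ g ∈ A, ∃ m₀, ∀ m ≥ m₀, g ∈ Set.Iic (boxTop f v m) := by
      intro g hg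
      obtain ⟨m₁, hm₁⟩ := Filter.eventually_atTop.1 (hW3 g hg)
      refine ⟨max m₁ ((Finset.range m₁).sup g), fun m hm i => ?_⟩
      simp only [boxTop]
      by_cases hi : i < m₁
      · have h1 : g i ≤ (Finset.range m₁).sup g := Finset.le_sup (Finset.mem_range.2 hi)
        have h2 : i < m := lt_of_lt_of_le hi ((le_max_left _ _).trans hm)
        rw [if_pos h2]
        exact le_max_of_le_right (h1.trans ((le_max_right _ _).trans hm))
      · have h1 := hm₁ i (not_lt.1 hi)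
        refine le_max_of_le_left (h1.trans ?_)
        apply Finset.sup_le
        intro h hh
        exact hsup i h (Finset.mem_biUnion.2 ⟨g, hg, hh⟩)
    choose! m₀ hm₀ using hmg
    have hAbox : (↑A : Set (ℕ → ℕ)) ⊆ Set.Iic (boxTop f v (A.sup m₀)) := by
      intro g hg
      exact hm₀ g hg _ (Finset.le_sup (f := m₀) hg)
    obtain ⟨r, i, hi, hiU, hibox⟩ := hF k (A.sup m₀) v hv
    refine ⟨e k (A.sup m₀) r, ?_⟩
    intro g hg
    have := hibox (hAbox hg)
    obtain ⟨u, hu, hgu⟩ := this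
    exact ⟨u, hH k _ r i hi hiU hu, hgu⟩

/-- A countable set of cuts in the complement of `X`. -/
lemma exists_cuts (X : Set ℝ) : ∃ D : Set ℝ, D.Countable ∧ (∀ d ∈ D, d ∉ X) ∧
    (∀ a b, (∀ d ∈ D, ¬ (a < d ∧ d < b)) → Ioo a b ⊆ X) ∧
    (∀ a x, a < x → Ioo a x ⊆ X → x ∉ X → x ∈ D) ∧
    (∀ x b, x < b → Ioo x b ⊆ X → x ∉ X → x ∈ D) := by
  obtain ⟨D₀, hD₀X, hD₀c, hD₀d⟩ :=
    (TopologicalSpace.IsSeparable.of_separableSpace (Xᶜ)).exists_countable_dense_subset
  have hR : { x ∈ Xᶜ | 𝓝[Xᶜ ∩ Ioi x] x = ⊥ }.Countable :=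
    countable_setOfPred_isolated_right_within
  have hL : { x ∈ Xᶜ | 𝓝[Xᶜ ∩ Iio x] x = ⊥ }.Countable :=
    countable_setOfPred_isolated_left_within
  refine ⟨D₀ ∪ ({ x ∈ Xᶜ | 𝓝[Xᶜ ∩ Ioi x] x = ⊥ } ∪ { x ∈ Xᶜ | 𝓝[Xᶜ ∩ Iio x] x = ⊥ }),
    hD₀c.union (hR.union hL), ?_, ?_, ?_, ?_⟩
  · rintro d (hd | hd | hd)
    · exact hD₀X hd
    · exact hd.1
    · exact hd.1
  · intro a b h x hx
    by_contra hxX
    obtain ⟨d, hd1, hd2⟩ := mem_closure_iff.1 (hD₀d hxX) (Ioo a b) isOpen_Ioo hx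
    exact h d (Or.inl hd2) hd1
  · intro a x hax hsub hxX
    refine Or.inr (Or.inr ⟨hxX, ?_⟩)
    rw [← empty_mem_iff_bot, mem_nhdsWithin]
    refine ⟨Ioi a, isOpen_Ioi, hax, ?_⟩
    rintro z ⟨hz1, hz2, hz3⟩
    exact hz2 (hsub ⟨hz1, hz3⟩)
  · intro x b hxb hsub hxX
    refine Or.inr (Or.inl ⟨hxX, ?_⟩)
    rw [← empty_mem_iff_bot, mem_nhdsWithin]
    refine ⟨Iio b, isOpen_Iio, hxb, ?_⟩
    rintro z ⟨hz1, hz2, hz3⟩
    exact hz2 (hsub ⟨hz3, hz1⟩)

/-- The pieces of `X`. -/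
def piece (X : Set ℝ) (j : ℕ) : Set ℝ :=
  {x | x ∈ X ∧ |x| ≤ j ∧ (Metric.ball x (1 / ((j : ℝ) + 1)) ⊆ X ∨ x ∉ interior X)}

lemma piece_mono (X : Set ℝ) {j j' : ℕ} (h : j ≤ j') : piece X j ⊆ piece X j' := by
  rintro x ⟨hx, hxj, hx3⟩
  have hjj : (j : ℝ) ≤ j' := by exact_mod_cast h
  refine ⟨hx, hxj.trans hjj, ?_⟩
  rcases hx3 with h3 | h3
  · left
    refine (Metric.ball_subset_ball ?_).trans h3
    apply one_div_le_one_div_of_le <;> [positivity; linarith]
  · exact Or.inr h3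

lemma mem_piece (X : Set ℝ) {x : ℝ} (hx : x ∈ X) : ∃ j, x ∈ piece X j := by
  obtain ⟨j₁, hj₁⟩ := exists_nat_ge |x|
  by_cases hi : x ∈ interior X
  · obtain ⟨ε, hε, hball⟩ := Metric.isOpen_iff.1 isOpen_interior x hi
    obtain ⟨j₂, hj₂⟩ := exists_nat_one_div_lt hε
    refine ⟨max j₁ j₂, hx, hj₁.trans (by exact_mod_cast le_max_left _ _), Or.inl ?_⟩
    refine (Metric.ball_subset_ball ?_).trans (hball.trans interior_subset)
    refine le_trans ?_ hj₂.le
    apply one_div_le_one_div_of_le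
    · positivity
    · have : (j₂ : ℝ) ≤ (max j₁ j₂ : ℕ) := by exact_mod_cast le_max_right _ _
      linarith
  · exact ⟨j₁, hx, hj₁, Or.inr hi⟩

/-- Ultrafilters on a piece whose cut over `D` is that of a point of `X` converge in `X`. -/
lemma piece_ultrafilter (X D : Set ℝ)
    (hD1 : ∀ a b, (∀ d ∈ D, ¬ (a < d ∧ d < b)) → Ioo a b ⊆ X)
    (hD2 : ∀ a x, a < x → Ioo a x ⊆ X → x ∉ X → x ∈ D)
    (hD3 : ∀ x b, x < b → Ioo x b ⊆ X → x ∉ X → x ∈ D)
    (j : ℕ) (V : Ultrafilter ℝ) (hV : piece X j ∈ V) (y : ℝ) (hy : y ∈ X)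
    (hcut : ∀ d ∈ D, (∀ᶠ u in (V : Filter ℝ), d < u) ↔ d < y) :
    ∃ v ∈ X, (V : Filter ℝ) ≤ 𝓝 v := by
  have hcomp : IsCompact (Icc (-(j : ℝ)) j) := isCompact_Icc
  obtain ⟨v, -, hv⟩ := hcomp.ultrafilter_le_nhds V (by
    rw [le_principal_iff]
    refine mem_of_superset hV ?_
    rintro x ⟨_, hx, _⟩
    exact abs_le.1 hx)
  refine ⟨v, ?_, hv⟩
  have hVX : ∀ᶠ u in (V : Filter ℝ), u ∈ X := mem_of_superset hV (fun x hx => hx.1)
  have hsplit : (∀ᶠ u in (V : Filter ℝ), Metric.ball u (1 / ((j : ℝ) + 1)) ⊆ X) ∨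
      (∀ᶠ u in (V : Filter ℝ), u ∉ interior X) := by
    rw [← Ultrafilter.eventually_or]
    exact mem_of_superset hV (fun x hx => hx.2.2)
  rcases hsplit with hs | hs
  · have hpos : (0 : ℝ) < 1 / ((j : ℝ) + 1) := by positivity
    have h1 : ∀ᶠ u in (V : Filter ℝ), dist u v < 1 / ((j : ℝ) + 1) :=
      hv (Metric.ball_mem_nhds v hpos)
    obtain ⟨u, hu1, hu2⟩ := (h1.and hs).exists
    exact hu2 (by rwa [Metric.mem_ball, dist_comm])
  · by_contra hvX
    rcases lt_trichotomy y v with h | h | h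
    · have hIoo : Ioo y v ⊆ X := by
        apply hD1
        rintro d hd ⟨h1, h2⟩
        have : ∀ᶠ u in (V : Filter ℝ), d < u := hv (lt_mem_nhds h2)
        exact absurd ((hcut d hd).1 this) (not_lt.2 h1.le)
      have hvD := hD2 y v h hIoo hvX
      have h1 : ¬ ∀ᶠ u in (V : Filter ℝ), v < u := by
        rw [hcut v hvD]; exact not_lt.2 h.le
      have h2 : ∀ᶠ u in (V : Filter ℝ), ¬ v < u := Ultrafilter.eventually_not.2 h1
      have h3 : ∀ᶠ u in (V : Filter ℝ), y < u := hv (lt_mem_nhds h)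
      obtain ⟨u, hu1, hu2, hu3, hu4⟩ := (h2.and (h3.and (hVX.and hs))).exists
      have hne : u ≠ v := fun h => hvX (h ▸ hu3)
      have hlt : u < v := lt_of_le_of_ne (not_lt.1 hu1) hne
      exact hu4 (interior_maximal hIoo isOpen_Ioo ⟨hu2, hlt⟩)
    · exact hvX (h ▸ hy)
    · have hIoo : Ioo v y ⊆ X := by
        apply hD1
        rintro d hd ⟨h1, h2⟩
        have h3 : ∀ᶠ u in (V : Filter ℝ), d < u := (hcut d hd).2 h2
        have h4 : ∀ᶠ u in (V : Filter ℝ), u < d := hv (gt_mem_nhds h1)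
        obtain ⟨u, hu1, hu2⟩ := (h3.and h4).exists
        exact lt_asymm hu1 hu2
      have hvD := hD3 v y h hIoo hvX
      have h1 : ∀ᶠ u in (V : Filter ℝ), v < u := (hcut v hvD).2 h
      have h3 : ∀ᶠ u in (V : Filter ℝ), u < y := hv (gt_mem_nhds h)
      obtain ⟨u, hu1, hu2, hu4⟩ := (h1.and (h3.and hs)).exists
      exact hu4 (interior_maximal hIoo isOpen_Ioo ⟨hu1, hu2⟩)

/-- The coding map: `x` is sent to the characteristic function of the set of all triples
`(m, F, {d ∈ F | d < x})` with `F` a finite set of cuts. -/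
noncomputable def code {D : Set ℝ} (e : ℕ × Finset D × Finset D → ℕ) (x : ℝ) (n : ℕ) : ℕ :=
  by
    classical
    exact if ∃ t : ℕ × Finset D × Finset D, e t = n ∧ ∀ d ∈ t.2.1, (d ∈ t.2.2 ↔ (d : ℝ) < x)
      then 1 else 0

lemma code_continuousOn {D X : Set ℝ} (hDX : ∀ d ∈ D, d ∉ X)
    (e : ℕ × Finset D × Finset D → ℕ) (he : Function.Injective e) :
    ContinuousOn (code e) X := by
  classical
  rw [continuousOn_pi]
  intro n x hx
  have hev : ∀ᶠ y in 𝓝[X] x, code e y n = code e x n := by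
    by_cases hn : ∃ t, e t = n
    · obtain ⟨t, ht⟩ := hn
      have h1 : ∀ d ∈ t.2.1, ∀ᶠ y in 𝓝[X] x, ((d : ℝ) < y ↔ (d : ℝ) < x) := by
        intro d _
        have hne : (d : ℝ) ≠ x := fun h => hDX d d.2 (h ▸ hx)
        rcases lt_or_gt_of_ne hne with h | h
        · filter_upwards [mem_nhdsWithin_of_mem_nhds (lt_mem_nhds h)] with y hy
          exact ⟨fun _ => h, fun _ => hy⟩
        · filter_upwards [mem_nhdsWithin_of_mem_nhds (gt_mem_nhds h)] with y hy
          exact ⟨fun h' => absurd h' (lt_asymm hy), fun h' => absurd h' (lt_asymm h)⟩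
      have h2 := (Filter.eventually_all_finset t.2.1).2 h1
      filter_upwards [h2] with y hy
      have : (∃ t' : ℕ × Finset D × Finset D, e t' = n ∧ ∀ d ∈ t'.2.1, (d ∈ t'.2.2 ↔ (d : ℝ) < y))
          ↔ (∃ t' : ℕ × Finset D × Finset D, e t' = n ∧
            ∀ d ∈ t'.2.1, (d ∈ t'.2.2 ↔ (d : ℝ) < x)) := by
        constructor
        · rintro ⟨t', ht', h⟩
          obtain rfl : t' = t := he (ht'.trans ht.symm)
          exact ⟨t', ht', fun d hd => (h d hd).trans (hy d hd)⟩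
        · rintro ⟨t', ht', h⟩
          obtain rfl : t' = t := he (ht'.trans ht.symm)
          exact ⟨t', ht', fun d hd => (h d hd).trans (hy d hd).symm⟩
      simp only [code, this]
    · refine Filter.Eventually.of_forall fun y => ?_
      have : ∀ z : ℝ, code e z n = 0 := by
        intro z
        simp only [code]
        rw [if_neg]
        rintro ⟨t, ht, _⟩
        exact hn ⟨t, ht⟩
      rw [this, this]
  exact (tendsto_const_nhds (x := code e x n)).congr' (hev.mono fun y hy => hy.symm)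

/-- If `G(Psi[X])` is Menger for every continuous `Psi`, then all finite powers of `X` are
Menger. -/
lemma powers_of_menger (X : Set ℝ)
    (h : ∀ f : ℝ → ℕ → ℕ, ContinuousOn f X → Menger (finMaxClosure (f '' X))) (k : ℕ) :
    Menger (power X k) := by
  classical
  intro U hU hcov
  rcases Nat.eq_zero_or_pos k with rfl | hk
  · -- the zeroth power is a point
    have hz : (fun i => i.elim0 : Fin 0 → ℝ) ∈ power X 0 := fun i => i.elim0
    obtain ⟨u, hu, hzu⟩ := hcov 0 hz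
    refine ⟨fun n => if n = 0 then {u} else ∅, ?_, ?_⟩
    · intro n
      by_cases hn : n = 0
      · subst hn; simpa using hu
      · simp [hn]
    · intro z _
      refine ⟨0, u, by simp, ?_⟩
      rwa [Subsingleton.elim z (fun i => i.elim0 : Fin 0 → ℝ)]
  obtain ⟨D, hDc, hDX, hD1, hD2, hD3⟩ := exists_cuts X
  have : Countable D := hDc.to_subtype
  obtain ⟨e, he⟩ := Countable.exists_injective_nat (ℕ × Finset D × Finset D)
  have hG := h (code e) (code_continuousOn hDX e he)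
  set G := finMaxClosure (code e '' X) with hGdef
  let M : (Fin k → ℝ) → ℕ → ℕ := fun v n => Finset.univ.sup (fun i => code e (v i) n)
  have hMG : ∀ v ∈ power X k, M v ∈ G := by
    intro v hv
    apply box_subset hk (code e) X v hv 0
    intro n
    exact le_max_left _ _
  -- the key compactness argument
  have key : ∀ (W : Set (Set (Fin k → ℝ))), (∀ u ∈ W, IsOpen u) → power X k ⊆ ⋃₀ W →
      ∀ j : ℕ, ∀ g ∈ G, ∃ i : Finset (Set (Fin k → ℝ)), (↑i : Set (Set (Fin k → ℝ))) ⊆ W ∧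
        ∀ᶠ g' in 𝓝 g, ∀ v, (∀ c, v c ∈ piece X j) → M v = g' →
          v ∈ ⋃₀ (↑i : Set (Set (Fin k → ℝ))) := by
    intro W hW hWc j g hg
    by_contra hcon
    push Not at hcon
    -- the family of nonempty sets
    let ι := {N : Set (ℕ → ℕ) // N ∈ 𝓝 g} ×
      {i : Finset (Set (Fin k → ℝ)) // (↑i : Set (Set (Fin k → ℝ))) ⊆ W}
    let B : ι → Set (Fin k → ℝ) := fun p =>
      {v | M v ∈ p.1.1 ∧ (∀ c, v c ∈ piece X j) ∧ v ∉ ⋃₀ (↑p.2.1 : Set (Set (Fin k → ℝ)))}
    have hBne : ∀ p, (B p).Nonempty := by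
      intro p
      have h1 := hcon p.2.1 p.2.2
      obtain ⟨g', hg', v, hv1, hv2, hv3⟩ := (h1.and_eventually p.1.2).exists.imp
        (fun g' hg' => (⟨hg'.2, hg'.1⟩ : g' ∈ p.1.1 ∧ _))
      exact ⟨v, by rw [hv2]; exact hg', hv1, hv3⟩
    have hne : (⨅ p, 𝓟 (B p)).NeBot := by
      have : Nonempty ι := ⟨⟨⟨univ, univ_mem⟩, ⟨∅, by simp⟩⟩⟩
      apply Filter.iInf_neBot_of_directed'
      · rintro ⟨N₁, i₁⟩ ⟨N₂, i₂⟩
        refine ⟨⟨⟨N₁.1 ∩ N₂.1, inter_mem N₁.2 N₂.2⟩, ⟨i₁.1 ∪ i₂.1, ?_⟩⟩, ?_, ?_⟩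
        · rw [Finset.coe_union]; exact union_subset i₁.2 i₂.2
        · simp only [ge_iff_le, Filter.principal_mono]
          rintro v ⟨hv1, hv2, hv3⟩
          refine ⟨hv1.1, hv2, fun hv => hv3 ?_⟩
          obtain ⟨u, hu, hvu⟩ := hv
          exact ⟨u, by simp only [Finset.coe_union]; exact Or.inl hu, hvu⟩
        · simp only [ge_iff_le, Filter.principal_mono]
          rintro v ⟨hv1, hv2, hv3⟩
          refine ⟨hv1.2, hv2, fun hv => hv3 ?_⟩
          obtain ⟨u, hu, hvu⟩ := hv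
          exact ⟨u, by simp only [Finset.coe_union]; exact Or.inr hu, hvu⟩
      · intro p
        exact Filter.principal_neBot_iff.2 (hBne p)
    let 𝒰 : Ultrafilter (Fin k → ℝ) := @Ultrafilter.of _ _ hne
    have hB : ∀ p, B p ∈ 𝒰 := by
      intro p
      exact (@Ultrafilter.of_le _ _ hne) (Filter.mem_iInf_of_mem p (Filter.mem_principal_self _))
    have hpiece : ∀ᶠ v in (𝒰 : Filter (Fin k → ℝ)), ∀ c, v c ∈ piece X j :=
      mem_of_superset (hB ⟨⟨univ, univ_mem⟩, ⟨∅, by simp⟩⟩) (fun v hv => hv.2.1)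
    have hMt : Tendsto M 𝒰 (𝓝 g) := by
      intro N hN
      change M ⁻¹' N ∈ (𝒰 : Filter (Fin k → ℝ))
      exact mem_of_superset (hB ⟨⟨N, hN⟩, ⟨∅, by simp⟩⟩) (fun v hv => hv.1)
    have hnotin : ∀ u ∈ W, ∀ᶠ v in (𝒰 : Filter (Fin k → ℝ)), v ∉ u := by
      intro u hu
      refine mem_of_superset (hB ⟨⟨univ, univ_mem⟩, ⟨{u}, by simpa using hu⟩⟩) ?_
      rintro v ⟨_, _, hv⟩ hvu
      exact hv ⟨u, by simp, hvu⟩
    -- coordinatewise convergence
    have hcoord : ∀ c : Fin k, ∃ x ∈ X, Tendsto (fun v : Fin k → ℝ => v c) 𝒰 (𝓝 x) := by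
      intro c
      let V : Ultrafilter ℝ := 𝒰.map (fun v => v c)
      have hV : piece X j ∈ V := by
        change (fun v : Fin k → ℝ => v c) ⁻¹' piece X j ∈ 𝒰
        exact mem_of_superset hpiece (fun v hv => hv c)
      -- the cut of `V` is realised
      have hy : ∃ y ∈ X, ∀ d ∈ D, (∀ᶠ u in (V : Filter ℝ), d < u) ↔ d < y := by
        by_contra hno'
        have hno : ∀ y ∈ X, ∃ d ∈ D, ¬ ((∀ᶠ u in (V : Filter ℝ), d < u) ↔ d < y) := by
          intro y hy
          by_contra h'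
          exact hno' ⟨y, hy, fun d hd => by_contra fun h'' => h' ⟨d, hd, h''⟩⟩
        obtain ⟨F₀, hF₀ne, hF₀, hdom⟩ := hg
        have hwit : ∀ y : ℝ, ∃ d : D, y ∈ X →
            ¬ ((∀ᶠ u in (V : Filter ℝ), (d : ℝ) < u) ↔ (d : ℝ) < y) := by
          intro y
          by_cases hyX : y ∈ X
          · obtain ⟨d, hd, hd'⟩ := hno y hyX
            exact ⟨⟨d, hd⟩, fun _ => hd'⟩
          · obtain ⟨f, hf⟩ := hF₀ne
            obtain ⟨y', hy', _⟩ := hF₀ hf
            obtain ⟨d, hd, _⟩ := hno y' hy'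
            exact ⟨⟨d, hd⟩, fun h => absurd h hyX⟩
        choose dd hdd using hwit
        have hsrc : ∀ f ∈ F₀, ∃ y ∈ X, code e y = f := fun f hf => hF₀ hf
        choose! yy hyyX hyy using hsrc
        let F : Finset D := F₀.image (fun f => dd (yy f))
        let S : Finset D := F.filter (fun d => ∀ᶠ u in (V : Filter ℝ), (d : ℝ) < u)
        let t : ℕ → ℕ × Finset D × Finset D := fun m => (m, F, S)
        have htinj : Function.Injective (fun m => e (t m)) := by
          intro m m' hmm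
          have := he hmm
          exact congrArg Prod.fst this
        obtain ⟨n₀, hn₀⟩ := Filter.eventually_atTop.1 hdom
        obtain ⟨m, hm⟩ : ∃ m, n₀ ≤ e (t m) := by
          by_contra hcon2
          push Not at hcon2
          have : (Set.range (fun m => e (t m))).Finite :=
            (Set.finite_lt_nat n₀).subset (by rintro _ ⟨m, rfl⟩; exact hcon2 m)
          exact Set.infinite_range_of_injective htinj this
        -- eventually the code contains `t m`
        have hF : ∀ᶠ u in (V : Filter ℝ), ∀ d ∈ F, (d ∈ S ↔ (d : ℝ) < u) := by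
          rw [Filter.eventually_all_finset]
          intro d hd
          by_cases hdV : ∀ᶠ u in (V : Filter ℝ), (d : ℝ) < u
          · have hdS : d ∈ S := Finset.mem_filter.2 ⟨hd, hdV⟩
            filter_upwards [hdV] with u hu
            exact ⟨fun _ => hu, fun _ => hdS⟩
          · have hdS : d ∉ S := fun h => hdV (Finset.mem_filter.1 h).2
            have := Ultrafilter.eventually_not.2 hdV
            filter_upwards [this] with u hu
            exact ⟨fun h => absurd h hdS, fun h => absurd h hu⟩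
        have hMge : ∀ᶠ v in (𝒰 : Filter (Fin k → ℝ)), 1 ≤ M v (e (t m)) := by
          have hF' : ∀ᶠ v in (𝒰 : Filter (Fin k → ℝ)), ∀ d ∈ F, (d ∈ S ↔ (d : ℝ) < v c) := hF
          filter_upwards [hF'] with v hv
          have h1 : code e (v c) (e (t m)) = 1 := by
            simp only [code]
            rw [if_pos]
            exact ⟨t m, rfl, hv⟩
          calc 1 = code e (v c) (e (t m)) := h1.symm
            _ ≤ M v (e (t m)) := Finset.le_sup (f := fun i => code e (v i) (e (t m)))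
                (Finset.mem_univ c)
        have hgval : ∀ᶠ v in (𝒰 : Filter (Fin k → ℝ)), M v (e (t m)) = g (e (t m)) := by
          have h1 : Tendsto (fun v => M v (e (t m))) 𝒰 (𝓝 (g (e (t m)))) :=
            ((continuous_apply (e (t m))).tendsto g).comp hMt
          rwa [nhds_discrete, tendsto_pure] at h1
        obtain ⟨v, hv1, hv2⟩ := (hMge.and hgval).exists
        have hg1 : 1 ≤ F₀.sup (fun f => f (e (t m))) := by
          rw [hv2] at hv1
          exact hv1.trans (hn₀ _ hm)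
        obtain ⟨f, hf, hf1⟩ := (Finset.le_sup_iff (by norm_num : (⊥ : ℕ) < 1)).1 hg1
        have hfy := hyy f hf
        have hfX := hyyX f hf
        rw [← hfy] at hf1
        have hex : ∃ t' : ℕ × Finset D × Finset D, e t' = e (t m) ∧
            ∀ d ∈ t'.2.1, (d ∈ t'.2.2 ↔ (d : ℝ) < yy f) := by
          by_contra hcon3
          simp only [code] at hf1
          rw [if_neg hcon3] at hf1
          omega
        obtain ⟨t', ht', hd'⟩ := hex
        obtain rfl : t' = t m := he ht'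
        have hdF : dd (yy f) ∈ F := Finset.mem_image_of_mem _ hf
        have h1 := hd' _ hdF
        apply hdd (yy f) hfX
        rw [← h1]
        constructor
        · intro h; exact Finset.mem_filter.2 ⟨hdF, h⟩
        · intro h; exact (Finset.mem_filter.1 h).2
      obtain ⟨y, hyX, hy⟩ := hy
      obtain ⟨v, hvX, hv⟩ := piece_ultrafilter X D hD1 hD2 hD3 j V hV y hyX hy
      exact ⟨v, hvX, hv⟩
    choose x hxX hx using hcoord
    have hlim : (𝒰 : Filter (Fin k → ℝ)) ≤ 𝓝 x := by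
      have : Tendsto (fun v : Fin k → ℝ => v) 𝒰 (𝓝 x) := tendsto_pi_nhds.2 hx
      exact this
    obtain ⟨u, hu, hxu⟩ := hWc (show x ∈ power X k from hxX)
    have h1 : ∀ᶠ v in (𝒰 : Filter (Fin k → ℝ)), v ∈ u := hlim ((hW u hu).mem_nhds hxu)
    obtain ⟨v, hv1, hv2⟩ := (h1.and (hnotin u hu)).exists
    exact hv2 hv1
  -- apply the Menger property of `G` along subsequences
  have main : ∀ j : ℕ, ∃ F : ℕ → Finset (Finset (Set (Fin k → ℝ))),
      ∀ g ∈ G, ∃ r, ∃ i ∈ F r, g ∈ {g' : ℕ → ℕ |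
        (↑i : Set (Set (Fin k → ℝ))) ⊆ U (Nat.pair j r) ∧
        ∀ v, (∀ c, v c ∈ piece X j) → M v = g' → v ∈ ⋃₀ (↑i : Set (Set (Fin k → ℝ)))} := by
    intro j
    apply Menger.choose hG
    intro r g hg
    obtain ⟨i, hi, hev⟩ := key (U (Nat.pair j r)) (hU _) (hcov _) j g hg
    refine ⟨i, mem_nhdsWithin_of_mem_nhds ?_⟩
    filter_upwards [hev] with g' hg' using ⟨hi, hg'⟩
  choose F hF using main
  let H : ℕ → Finset (Set (Fin k → ℝ)) := fun n =>
    ((F (Nat.unpair n).1 (Nat.unpair n).2).filter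
      (fun i : Finset (Set (Fin k → ℝ)) => (↑i : Set (Set (Fin k → ℝ))) ⊆ U n)).biUnion id
  refine ⟨H, ?_, ?_⟩
  · intro n u hu
    simp only [H, Finset.coe_biUnion, Set.mem_iUnion, Finset.mem_coe, Finset.mem_filter, id] at hu
    obtain ⟨i, ⟨_, hi⟩, hu⟩ := hu
    exact hi hu
  · intro v hv
    have hj : ∀ c, ∃ j, v c ∈ piece X j := fun c => mem_piece X (hv c)
    choose jj hjj using hj
    have hjall : ∀ c, v c ∈ piece X (Finset.univ.sup jj) := fun c =>
      piece_mono X (Finset.le_sup (Finset.mem_univ c)) (hjj c)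
    obtain ⟨r, i, hi, hiU, hiv⟩ := hF (Finset.univ.sup jj) (M v) (hMG v hv)
    refine ⟨Nat.pair (Finset.univ.sup jj) r, ?_⟩
    obtain ⟨u, hu, hvu⟩ := hiv v hjall rfl
    refine ⟨u, ?_, hvu⟩
    simp only [H, Nat.unpair_pair, Finset.coe_biUnion, Set.mem_iUnion, Finset.mem_coe,
      Finset.mem_filter, id]
    exact ⟨i, ⟨hi, hiU⟩, hu⟩

/-- First part: Q1 holds if and only if every set of reals with `U_fin(O, Omega)` is Menger in
all finite powers.  Second part, the pointwise version: for an arbitrary set of reals `X`,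
`G(Psi[X])` has `U_fin(O, Omega)` for all continuous `Psi` if and only if all finite powers of `X`
are Menger, if and only if `G(Psi[X])` is Menger for all continuous `Psi`. -/
theorem result :
    ((∀ X : Set ℝ, UfinOmega X →
        ∀ f : ℝ → (ℕ → ℕ), ContinuousOn f X → UfinOmega (finMaxClosure (f '' X))) ↔
      (∀ X : Set ℝ, UfinOmega X → ∀ k : ℕ, Menger (power X k))) ∧
    (∀ X : Set ℝ,
      ((∀ f : ℝ → (ℕ → ℕ), ContinuousOn f X → UfinOmega (finMaxClosure (f '' X))) ↔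
        (∀ k : ℕ, Menger (power X k))) ∧
      ((∀ f : ℝ → (ℕ → ℕ), ContinuousOn f X → Menger (finMaxClosure (f '' X))) ↔
        (∀ k : ℕ, Menger (power X k)))) := by
  have hpt : ∀ X : Set ℝ,
      ((∀ f : ℝ → (ℕ → ℕ), ContinuousOn f X → UfinOmega (finMaxClosure (f '' X))) ↔
        (∀ k : ℕ, Menger (power X k))) ∧
      ((∀ f : ℝ → (ℕ → ℕ), ContinuousOn f X → Menger (finMaxClosure (f '' X))) ↔
        (∀ k : ℕ, Menger (power X k))) := by
    intro X
    refine ⟨⟨fun h => powers_of_menger X (fun f hf => (h f hf).menger),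
      fun h f hf => ufin_of_powers X h f hf⟩, ⟨fun h => powers_of_menger X h,
      fun h f hf => (ufin_of_powers X h f hf).menger⟩⟩
  refine ⟨⟨fun h X hX => (hpt X).1.1 (h X hX), fun h X hX => (hpt X).1.2 (h X hX)⟩, hpt⟩

end Pool.Agent.Results.MP_10444e_gt.FinitePowers
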